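import Mathlib

/-!
# MP_5ee2d0_ag: the Euler characteristic is not zero for infinitely many `m`
-/

namespace Pool.Agent.H87.FB

open Filter Topology

/-- arbitrarily large multiples of `β` which are slightly larger than an integer -/
theorem exists_fract_lt (β e : ℝ) (he : 0 < e) (N : ℕ) :
    ∃ k : ℕ, N ≤ k ∧ 0 < k ∧ Int.fract (k * β) < e := by
  -- shrink `e`
  wlog h1 : e ≤ 1 generalizing e
  · obtain ⟨k, hk, hk0, h⟩ := this 1 one_pos le_rfl
    exact ⟨k, hk, hk0, h.trans (not_le.1 h1)⟩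
  obtain ⟨n, hn⟩ := exists_nat_gt (1 / e)
  have hn0 : 0 < n := by
    have : (0 : ℝ) < n := lt_trans (by positivity) hn
    exact_mod_cast this
  obtain ⟨q, hq0, -, hq⟩ := Real.exists_nat_abs_mul_sub_round_le (((N + 1 : ℕ) : ℝ) * β) hn0
  set p := round ((q : ℝ) * (((N + 1 : ℕ) : ℝ) * β)) with hp
  set t : ℝ := q * (((N + 1 : ℕ) : ℝ) * β) - p with ht
  have hte : |t| < e := by
    refine lt_of_le_of_lt hq ?_
    rw [div_lt_iff₀ (by positivity)]
    rw [div_lt_iff₀ he] at hn
    nlinarith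
  have hk : N ≤ q * (N + 1) := by nlinarith
  have hk0 : 0 < q * (N + 1) := Nat.mul_pos hq0 (Nat.succ_pos N)
  rcases le_or_gt 0 t with h | h
  · refine ⟨q * (N + 1), hk, hk0, ?_⟩
    have e1 : ((q * (N + 1) : ℕ) : ℝ) * β = t + p := by
      rw [ht]; push_cast; ring
    rw [e1, Int.fract_add_intCast, Int.fract_eq_self.2 ⟨h, by
      rw [abs_of_nonneg h] at hte; linarith⟩]
    rwa [abs_of_nonneg h] at hte
  · -- `t < 0`
    rw [abs_of_neg h] at hte
    set η := -t with hη
    have hη0 : 0 < η := by linarith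
    set j := ⌊1 / η⌋₊ with hj
    have hj1 : (j : ℝ) * η ≤ 1 := by
      have := Nat.floor_le (show 0 ≤ 1 / η by positivity)
      rw [← hj, le_div_iff₀ hη0] at this
      exact this
    have hj2 : 1 < ((j : ℝ) + 1) * η := by
      have := Nat.lt_floor_add_one (1 / η)
      rw [← hj, div_lt_iff₀ hη0] at this
      exact this
    have hj0 : 0 < j := by
      rcases Nat.eq_zero_or_pos j with h0 | h0
      · rw [h0] at hj2; norm_num at hj2; linarith
      · exact h0
    refine ⟨j * (q * (N + 1)), le_trans hk (Nat.le_mul_of_pos_left _ hj0),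
      Nat.mul_pos hj0 hk0, ?_⟩
    have e1 : ((j * (q * (N + 1)) : ℕ) : ℝ) * β = (1 - j * η) + ((j * p - 1 : ℤ) : ℝ) := by
      rw [hη, ht]; push_cast; ring
    rw [e1, Int.fract_add_intCast, Int.fract_eq_self.2 ⟨by linarith, by
      have : (0 : ℝ) < j * η := by positivity
      linarith⟩]
    linarith

/-- Let `R m = m Ψ(F_m) + Φ(F_m)`, where `F_m` is the vector of the fractional parts of `m β s_j`, `s_j`
integers, and `Φ(0)` is not zero. Then `R m` is not zero for infinitely many `m`. -/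
theorem exists_ne_zero {J : Type} [Fintype J] (s : J → ℕ) (β : ℝ) (Φ Ψ : (J → ℝ) → ℝ)
    (hΦ : Continuous Φ) (hΨ : Continuous Ψ) (h0 : Φ 0 ≠ 0) (N : ℕ) :
    ∃ m : ℕ, N ≤ m ∧ m * Ψ (fun j => Int.fract (m * (β * s j))) +
      Φ (fun j => Int.fract (m * (β * s j))) ≠ 0 := by
  classical
  by_contra hcon
  push Not at hcon
  -- a bound for the `s_j`
  obtain ⟨K, hK⟩ : ∃ K : ℕ, ∀ j, s j ≤ K := ⟨∑ j, s j, fun j =>
    Finset.single_le_sum (f := s) (fun _ _ => Nat.zero_le _) (Finset.mem_univ j)⟩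
  have hvec : ∀ m : ℕ, (K + 1 : ℝ) * Int.fract (m * β) < 1 →
      (fun j => Int.fract ((m : ℝ) * (β * s j))) = fun j => Int.fract (m * β) * s j := by
    intro m hm
    funext j
    have hf := Int.fract_nonneg ((m : ℝ) * β)
    have hs : (s j : ℝ) ≤ K := by exact_mod_cast hK j
    have e1 : (m : ℝ) * (β * s j) = Int.fract (m * β) * s j + ((⌊(m : ℝ) * β⌋ * s j : ℤ) : ℝ) := by
      have := Int.fract_add_floor ((m : ℝ) * β)
      push_cast
      calc (m : ℝ) * (β * s j) = (m * β) * s j := by ring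
        _ = (Int.fract (m * β) + ⌊(m : ℝ) * β⌋) * s j := by rw [this]
        _ = _ := by ring
    rw [e1, Int.fract_add_intCast]
    refine Int.fract_eq_self.2 ⟨by positivity, ?_⟩
    nlinarith
  -- the sequence of small fractional parts
  have hseq : ∀ n : ℕ, ∃ k : ℕ, n ≤ k ∧ 0 < k ∧ Int.fract (k * β) < 1 / ((n : ℝ) + 1) := fun n =>
    exists_fract_lt β _ (by positivity) n
  choose k hk hk0 hkf using hseq
  have hlim : Tendsto (fun n => Int.fract ((k n : ℝ) * β)) atTop (𝓝 0) :=
    squeeze_zero (fun n => Int.fract_nonneg _) (fun n => (hkf n).le)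
      tendsto_one_div_add_atTop_nhds_zero_nat
  have hkt : Tendsto k atTop atTop := tendsto_atTop_mono hk tendsto_id
  -- `Ψ` vanishes at small multiples
  have hPsi : ∀ m : ℕ, N ≤ m → (K + 1 : ℝ) * Int.fract (m * β) < 1 →
      Ψ (fun j => Int.fract ((m : ℝ) * β) * s j) = 0 := by
    intro m hm hsmall
    set x := Int.fract ((m : ℝ) * β) with hx
    -- `m + k n`
    have h1 : ∀ᶠ n in atTop, Int.fract (((m + k n : ℕ) : ℝ) * β) = x + Int.fract ((k n : ℝ) * β) ∧
        (K + 1 : ℝ) * Int.fract (((m + k n : ℕ) : ℝ) * β) < 1 := by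
      have h2 : Tendsto (fun n => (K + 1 : ℝ) * (x + Int.fract ((k n : ℝ) * β))) atTop
          (𝓝 ((K + 1 : ℝ) * (x + 0))) := (hlim.const_add x).const_mul _
      rw [add_zero] at h2
      filter_upwards [h2.eventually_lt_const hsmall] with n hn
      have hf := Int.fract_nonneg ((k n : ℝ) * β)
      have hx0 := Int.fract_nonneg ((m : ℝ) * β)
      rw [← hx] at hx0
      have e1 : Int.fract (((m + k n : ℕ) : ℝ) * β) = x + Int.fract ((k n : ℝ) * β) := by
        have e2 : ((m + k n : ℕ) : ℝ) * β = (x + Int.fract ((k n : ℝ) * β)) +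
            ((⌊(m : ℝ) * β⌋ + ⌊(k n : ℝ) * β⌋ : ℤ) : ℝ) := by
          have a1 := Int.fract_add_floor ((m : ℝ) * β)
          have a2 := Int.fract_add_floor ((k n : ℝ) * β)
          rw [← hx] at a1
          push_cast
          linarith
        rw [e2, Int.fract_add_intCast]
        refine Int.fract_eq_self.2 ⟨by linarith, ?_⟩
        have hK0 : (0 : ℝ) ≤ K := Nat.cast_nonneg K
        nlinarith
      exact ⟨e1, by rw [e1]; exact hn⟩
    have hv : Tendsto (fun n => (fun j => Int.fract (((m + k n : ℕ) : ℝ) * β) * s j : J → ℝ)) atTop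
        (𝓝 fun j => x * s j) := by
      rw [tendsto_pi_nhds]
      intro j
      have h2 : Tendsto (fun n => (x + Int.fract ((k n : ℝ) * β)) * s j) atTop
          (𝓝 ((x + 0) * s j)) := (hlim.const_add x).mul_const _
      rw [add_zero] at h2
      refine h2.congr' ?_
      filter_upwards [h1] with n hn
      rw [hn.1]
    have h3 := (hΨ.tendsto _).comp hv
    have h4 := (hΦ.tendsto _).comp hv
    have h5 : Tendsto (fun n => -(Φ fun j => Int.fract (((m + k n : ℕ) : ℝ) * β) * s j) /
        ((m + k n : ℕ) : ℝ)) atTop (𝓝 0) := by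
      refine Tendsto.div_atTop h4.neg ?_
      exact tendsto_natCast_atTop_atTop.comp
        (tendsto_atTop_mono (fun n => Nat.le_add_left (k n) m) hkt)
    refine tendsto_nhds_unique h3 (h5.congr' ?_)
    filter_upwards [h1] with n hn
    have hne : ((m + k n : ℕ) : ℝ) ≠ 0 := by
      have := hk0 n
      positivity
    have h6 := hcon (m + k n) (by omega)
    rw [hvec _ hn.2] at h6
    rw [div_eq_iff hne]
    simp only [Function.comp]
    linarith
  -- `Φ` vanishes at the origin
  have h1 : ∀ᶠ n in atTop, N ≤ k n ∧ (K + 1 : ℝ) * Int.fract ((k n : ℝ) * β) < 1 := by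
    have h2 : Tendsto (fun n => (K + 1 : ℝ) * Int.fract ((k n : ℝ) * β)) atTop (𝓝 ((K + 1) * 0)) :=
      hlim.const_mul _
    rw [mul_zero] at h2
    exact (hkt.eventually_ge_atTop N).and (h2.eventually_lt_const one_pos)
  have hv : Tendsto (fun n => (fun j => Int.fract ((k n : ℝ) * β) * s j : J → ℝ)) atTop
      (𝓝 0) := by
    rw [tendsto_pi_nhds]
    intro j
    have h2 : Tendsto (fun n => Int.fract ((k n : ℝ) * β) * s j) atTop (𝓝 (0 * s j)) :=
      hlim.mul_const _
    rwa [zero_mul] at h2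
  refine h0 (tendsto_nhds_unique ((hΦ.tendsto 0).comp hv) (tendsto_const_nhds.congr' ?_))
  filter_upwards [h1] with n hn
  have h2 := hcon (k n) hn.1
  rw [hvec _ hn.2, hPsi _ hn.1 hn.2, mul_zero, zero_add] at h2
  exact h2.symm

end Pool.Agent.H87.FB
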