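import Pool.Agent.H87.FB.Data

/-!
# MP_5ee2d0_ag: termination of a program on a fourfold, the proof
-/

namespace Pool.Agent.H87.FB

namespace Steps

variable (S : Steps)

/-- the multiplicity of `SUM x_j F_j` on `Y_i` -/
noncomputable def w (i : ℕ) (E : S.A) : ℝ := ∑ j, S.x j * S.ord i E j

theorem w_mono (E : S.A) : Monotone fun i => S.w i E :=
  monotone_nat_of_le_succ fun i => S.mono i E

/-- the possible values -/
def vals : Set ℝ := {r | r ≤ S.C ∧ ∃ z : S.J → ℕ, r = ∑ j, S.x j * z j}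

theorem vals_finite : S.vals.Finite := by
  classical
  have h1 : ∀ j, ∃ n : ℕ, S.C / S.x j < n := fun j => exists_nat_gt _
  choose n hn using h1
  have h2 : (Set.pi Set.univ fun j => Set.Iic (n j) : Set (S.J → ℕ)).Finite :=
    Set.Finite.pi fun j => Set.finite_Iic _
  refine (h2.image fun z => ∑ j, S.x j * (z j : ℝ)).subset ?_
  rintro r ⟨hr, z, rfl⟩
  refine ⟨z, fun j _ => ?_, rfl⟩
  have h3 : S.x j * z j ≤ S.C := le_trans
    (Finset.single_le_sum (f := fun j => S.x j * (z j : ℝ))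
      (fun i _ => mul_nonneg (S.x_pos i).le (Nat.cast_nonneg _)) (Finset.mem_univ j)) hr
  have h4 : (z j : ℝ) ≤ S.C / S.x j := by
    rw [le_div_iff₀ (S.x_pos j)]
    linarith
  have h5 : (z j : ℝ) < n j := lt_of_le_of_lt h4 (hn j)
  exact_mod_cast h5.le

theorem mem_vals {i : ℕ} {E : S.A} (h : S.Surf i E) : S.w i E ∈ S.vals := by
  refine ⟨(S.le i E).trans (S.coef_le E), ?_⟩
  choose z hz using S.int i E h
  exact ⟨z, Finset.sum_congr rfl fun j _ => by rw [hz]⟩

/-- the smallest positive difference of two values -/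
theorem exists_gap : ∃ e : ℝ, 0 < e ∧ ∀ r ∈ S.vals, ∀ r' ∈ S.vals, r < r' → e ≤ r' - r := by
  classical
  have h1 : ((S.vals ×ˢ S.vals) ∩ {p | p.1 < p.2}).Finite :=
    (S.vals_finite.prod S.vals_finite).inter_of_left _
  by_cases h2 : ((S.vals ×ˢ S.vals) ∩ {p | p.1 < p.2}).Nonempty
  · obtain ⟨p, hp, hmin⟩ := h1.exists_minimalFor (fun p => p.2 - p.1) _ h2
    refine ⟨p.2 - p.1, sub_pos.2 hp.2, fun r hr r' hr' h => ?_⟩
    by_contra hlt
    rw [not_le] at hlt
    have := hmin (j := (r, r')) ⟨⟨hr, hr'⟩, h⟩ hlt.le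
    simp only at this
    linarith
  · refine ⟨1, one_pos, fun r hr r' hr' h => ?_⟩
    exact absurd ⟨(r, r'), ⟨hr, hr'⟩, h⟩ h2

/-- the divisors which are created as surfaces by some step -/
def created : Set S.A := {E | ∃ i, S.Inv i E ∧ S.Surf (i + 1) E}

theorem created_finite : S.created.Finite := by
  classical
  obtain ⟨e, he, hgap⟩ := S.exists_gap
  have h1 : ∀ E ∈ S.created, S.Surf 0 E → e ≤ S.coef E - S.w 0 E := by
    rintro E ⟨i, hi, hs⟩ h0
    have h2 : S.w 0 E ≤ S.w i E := S.w_mono E (Nat.zero_le i)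
    have h3 : S.w i E < S.w (i + 1) E := S.mono_lt i E hi
    have h4 := hgap _ (S.mem_vals h0) _ (S.mem_vals hs) (lt_of_le_of_lt h2 h3)
    have h5 : S.w (i + 1) E ≤ S.coef E := S.le (i + 1) E
    linarith
  have h2 : (S.created ∩ {E | S.Surf 0 E}).Finite := by
    by_contra hinf
    obtain ⟨n, hn⟩ := exists_nat_gt (S.M / e)
    obtain ⟨T, hT, hcard⟩ := Set.Infinite.exists_subset_card_eq hinf n
    have h3 := S.bound T fun E hE => (hT hE).2
    have h4 : (T.card : ℝ) * e ≤ ∑ E ∈ T, (S.coef E - ∑ j, S.x j * S.ord 0 E j) := by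
      rw [← nsmul_eq_mul]
      exact Finset.card_nsmul_le_sum _ _ _ fun E hE => h1 E (hT hE).1 (hT hE).2
    rw [hcard] at h4
    rw [div_lt_iff₀ he] at hn
    linarith
  refine (h2.union S.off).subset fun E hE => ?_
  by_cases h : S.Surf 0 E
  · exact Or.inl ⟨hE, h⟩
  · exact Or.inr h

theorem times_finite (E : S.A) : {i | S.Inv i E ∧ S.Surf (i + 1) E}.Finite := by
  refine Set.Finite.of_finite_image (f := fun i => S.w (i + 1) E)
    (S.vals_finite.subset ?_) ?_
  · rintro r ⟨i, hi, rfl⟩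
    exact S.mem_vals hi.2
  · have key : ∀ i i', S.Inv i' E → i < i' → S.w (i + 1) E < S.w (i' + 1) E := fun i i' h' hlt =>
      lt_of_le_of_lt (S.w_mono E (Nat.succ_le_of_lt hlt)) (S.mono_lt i' E h')
    intro i hi i' hi' h
    rcases lt_trichotomy i i' with hlt | heq | hlt
    · exact absurd h (key i i' hi'.1 hlt).ne
    · exact heq
    · exact absurd h (key i' i hi.1 hlt).ne'

include S in
/-- **Termination.** -/
theorem false : False := by
  classical
  have h1 : {i | ∃ E, S.Inv i E ∧ S.Surf (i + 1) E}.Finite := by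
    refine (S.created_finite.biUnion fun E _ => S.times_finite E).subset ?_
    rintro i ⟨E, hE⟩
    exact Set.mem_biUnion (show E ∈ S.created from ⟨i, hE⟩) hE
  obtain ⟨N, hN⟩ := h1.bddAbove
  have h2 : ∀ i, N < i → S.rk (i + 1) < S.rk i := fun i hi =>
    S.kmm i fun E hE hs => absurd (hN (show i ∈ {i | ∃ E, S.Inv i E ∧ S.Surf (i + 1) E} from
      ⟨E, hE, hs⟩)) (not_le.2 hi)
  have h3 : ∀ k, S.rk (N + 1 + k) + k ≤ S.rk (N + 1) := by
    intro k
    induction k with
    | zero => simp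
    | succ k ih =>
      have := h2 (N + 1 + k) (by omega)
      have e : N + 1 + (k + 1) = N + 1 + k + 1 := by ring
      rw [e]
      omega
  have := h3 (S.rk (N + 1) + 1)
  omega

end Steps

end Pool.Agent.H87.FB
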