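import Mathlib

/-!
# MP_5ee2d0_ag: the direction of the extremal divisor is rational

`P = L - ∑ b_j F_j` is nef, `P^2 = 0`, and the linear function `th` is maximal at `b`. For `y` in the convex
set `N` of the vectors such that `L - ∑ y_j F_j` is nef Siu's inequality gives an upper bound for the square
of this class. Let `h` be a vector in the smallest rational subspace which contains `b`, with `th h = 0`.
Then `N` contains the vectors near `t b` in the direction `h`, `0 < t < 1`, and the bound shows that `h` and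
`b` are orthogonal. The quadratic form is rational and anisotropic on the space of these vectors `h`, so `b` is
a multiple of a rational vector.
-/

namespace Pool.Agent.H87.FB

variable {J : Type} [Fintype J]

/-- a rational linear form on the real numbers which is not zero at `x`, if `x` is irrational -/
theorem exists_form (x : ℝ) (hx : ∀ q : ℚ, x ≠ q) : ∃ f : ℝ →ₗ[ℚ] ℚ, f 1 = 0 ∧ f x ≠ 0 := by
  have h1 : x ∉ Submodule.span ℚ ({1} : Set ℝ) := by
    intro h
    obtain ⟨q, hq⟩ := Submodule.mem_span_singleton.1 h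
    refine hx q ?_
    rw [← hq, Rat.smul_def, mul_one]
  obtain ⟨f, hf, hf1⟩ := Submodule.exists_dual_map_eq_bot_of_notMem h1 inferInstance
  refine ⟨f, ?_, hf⟩
  have h2 : f 1 ∈ (Submodule.span ℚ ({1} : Set ℝ)).map f :=
    Submodule.mem_map_of_mem (Submodule.mem_span_singleton_self 1)
  rw [hf1] at h2
  exact (Submodule.mem_bot ℚ).1 h2

/-- Let `b` be orthogonal, with respect to the rational quadratic form `Q`, to the rational vectors `h` with
`th h = 0` in the smallest rational subspace which contains `b`, and let `Q` be anisotropic on them. Then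
`b` is a multiple of a rational vector. -/
theorem exists_line (b : J → ℝ) (Q : J → J → ℚ) (th : J → ℚ) (hth : ∑ j, th j * b j ≠ 0)
    (horth : ∀ h : J → ℚ, (∀ a : J → ℚ, ∑ j, a j * b j = 0 → ∑ j, a j * h j = 0) →
      ∑ j, th j * h j = 0 → ∑ i, ∑ j, (Q i j : ℝ) * b i * h j = 0)
    (hdef : ∀ h : J → ℚ, (∀ a : J → ℚ, ∑ j, a j * b j = 0 → ∑ j, a j * h j = 0) →
      ∑ j, th j * h j = 0 → ∑ i, ∑ j, Q i j * h i * h j = 0 → h = 0) :
    ∃ (c : ℝ) (q : J → ℚ), ∀ j, b j = c * q j := by
  classical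
  set c := ∑ j, (th j : ℝ) * b j with hc
  have key : ∀ j, ∃ q : ℚ, b j / c = q := by
    intro j₀
    by_contra hcon
    push Not at hcon
    obtain ⟨f, hf1, hfx⟩ := exists_form _ hcon
    -- the image of a rational combination
    have hf : ∀ a : J → ℚ, f (∑ j, a j * (b j / c)) = ∑ j, a j * f (b j / c) := by
      intro a
      rw [map_sum]
      refine Finset.sum_congr rfl fun j _ => ?_
      rw [← Rat.smul_def, map_smul, smul_eq_mul]
    have hdiv : ∀ a : J → ℚ, ∑ j, (a j : ℝ) * (b j / c) = (∑ j, a j * b j) / c := by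
      intro a
      rw [Finset.sum_div]
      exact Finset.sum_congr rfl fun j _ => by ring
    have h1 : ∀ a : J → ℚ, ∑ j, a j * b j = 0 → ∑ j, a j * f (b j / c) = 0 := by
      intro a ha
      rw [← hf, hdiv, ha, zero_div, map_zero]
    have h2 : ∑ j, th j * f (b j / c) = 0 := by
      rw [← hf, hdiv, ← hc, div_self hth, hf1]
    have h3 : ∑ i, ∑ j, Q i j * f (b i / c) * f (b j / c) = 0 := by
      have h4 := horth _ h1 h2
      have h5 : ∑ i, ((∑ j, Q i j * f (b j / c) : ℚ) : ℝ) * (b i / c) = 0 := by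
        have e : ∑ i, ((∑ j, Q i j * f (b j / c) : ℚ) : ℝ) * (b i / c) =
            (∑ i, ∑ j, (Q i j : ℝ) * b i * f (b j / c)) / c := by
          rw [Finset.sum_div]
          refine Finset.sum_congr rfl fun i _ => ?_
          push_cast
          rw [Finset.sum_mul, Finset.sum_div]
          exact Finset.sum_congr rfl fun j _ => by ring
        rw [e, h4, zero_div]
      have h6 := hf fun i => ∑ j, Q i j * f (b j / c)
      rw [h5, map_zero] at h6
      rw [h6]
      refine Finset.sum_congr rfl fun i _ => ?_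
      rw [Finset.sum_mul]
      exact Finset.sum_congr rfl fun j _ => by ring
    exact hfx (congrFun (hdef _ h1 h2 h3) j₀)
  choose q hq using key
  refine ⟨c, q, fun j => ?_⟩
  rw [← hq, mul_div_cancel₀ _ hth]

/-- **Theorem.** The direction of `b` is rational. -/
theorem exists_line_of_sup (N : Set (J → ℝ)) (hN : Convex ℝ N) (b : J → ℝ) (hb : b ∈ N)
    (hb0 : ∀ j, 0 ≤ b j) (V : Set (J → ℤ)) (hfin : V.Finite) (hV : ∀ v ∈ V, ∑ j, b j * v j ≤ 0)
    (t e : ℝ) (ht0 : 0 < t) (ht1 : t < 1) (he : 0 < e)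
    (hloc : ∀ y : J → ℝ, (∀ j, |y j - b j| < e) → (∀ v ∈ V, ∑ j, y j * v j ≤ 0) →
      (fun j => t * y j) ∈ N)
    (Q : J → J → ℚ) (hQ : ∀ i j, Q i j = Q j i) (be th : J → ℚ) (hth : ∑ j, th j * b j ≠ 0)
    (hbe : ∑ j, be j * b j = 0 ∨ be = th)
    (hsq : 1 - 2 * ∑ j, be j * b j + ∑ i, ∑ j, Q i j * b i * b j = 0)
    (hM : ∀ y ∈ N, (∀ j, 0 ≤ y j) → ∀ s : ℝ, 0 < s → s < 1 →
      ∑ j, th j * y j = s * ∑ j, th j * b j →
      1 - 2 * ∑ j, be j * y j + ∑ i, ∑ j, Q i j * y i * y j ≤ 2 * (1 - s) * (1 - ∑ j, be j * y j))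
    (hdef : ∀ (h : J → ℚ) (s : ℝ), 0 < s → (∀ j, |s * h j| ≤ b j) →
      (fun j => t * (b j + s * h j)) ∈ N → (fun j => t * (b j - s * h j)) ∈ N →
      ∑ j, be j * h j = 0 → ∑ i, ∑ j, Q i j * h i * h j = 0 → h = 0) :
    ∃ (c : ℝ) (q : J → ℚ), ∀ j, b j = c * q j := by
  classical
  -- `be h = 0`
  have hbe0 : ∀ h : J → ℚ, (∀ a : J → ℚ, ∑ j, a j * b j = 0 → ∑ j, a j * h j = 0) →
      ∑ j, th j * h j = 0 → ∑ j, be j * h j = 0 := by
    intro h hh h0
    rcases hbe with hb | hb
    · exact hh be hb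
    · rw [hb]; exact h0
  -- nearby points
  have hnear : ∀ h : J → ℚ, (∀ a : J → ℚ, ∑ j, a j * b j = 0 → ∑ j, a j * h j = 0) →
      ∃ s : ℝ, 0 < s ∧ (∀ j, |s * h j| ≤ b j) ∧ ∀ σ : ℝ, (σ = s ∨ σ = -s) →
        (fun j => t * (b j + σ * h j)) ∈ N := by
    intro h hh
    have hint : ∀ v : J → ℤ, ∑ j, b j * v j = 0 → ∑ j, (h j : ℝ) * v j = 0 := by
      intro v hv
      have h1 := hh (fun j => (v j : ℚ)) (by
        rw [← hv]
        exact Finset.sum_congr rfl fun j _ => by push_cast; ring)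
      have h2 : ((∑ j, ((v j : ℤ) : ℚ) * h j : ℚ) : ℝ) = 0 := by rw [h1]; norm_num
      rw [← h2]
      push_cast
      exact Finset.sum_congr rfl fun j _ => by ring
    have hzero : ∀ j, b j = 0 → (h j : ℝ) = 0 := by
      intro j hj
      have h1 := hh (fun i => if i = j then 1 else 0) (by
        rw [Finset.sum_eq_single j]
        · simp [hj]
        · intro i _ hij
          simp [hij]
        · intro hn
          exact absurd (Finset.mem_univ j) hn)
      rw [Finset.sum_eq_single j] at h1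
      · simp only [if_true, one_mul] at h1
        exact_mod_cast h1
      · intro i _ hij
        simp [hij]
      · intro hn
        exact absurd (Finset.mem_univ j) hn
    have hlim : ∀ x : ℝ, Filter.Tendsto (fun s : ℝ => |s * x|) (nhdsWithin 0 (Set.Ioi 0)) (nhds 0) := by
      intro x
      have : Filter.Tendsto (fun s : ℝ => |s * x|) (nhds 0) (nhds |0 * x|) :=
        (continuous_abs.comp (continuous_id.mul continuous_const)).tendsto 0
      rw [zero_mul, abs_zero] at this
      exact this.mono_left nhdsWithin_le_nhds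
    have h1 : ∀ᶠ s : ℝ in nhdsWithin 0 (Set.Ioi 0), ∀ j, |s * h j| < e := by
      rw [Filter.eventually_all]
      exact fun j => (hlim _).eventually_lt_const he
    have h2 : ∀ᶠ s : ℝ in nhdsWithin 0 (Set.Ioi 0), ∀ v ∈ V,
        |s * ∑ j, (h j : ℝ) * v j| ≤ -∑ j, b j * v j := by
      rw [Set.Finite.eventually_all hfin]
      intro v hv
      rcases eq_or_lt_of_le (hV v hv) with h4 | h4
      · refine Filter.Eventually.of_forall fun s => ?_
        rw [h4, hint v h4, mul_zero, abs_zero, neg_zero]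
      · exact ((hlim _).eventually_lt_const (neg_pos.2 h4)).mono fun s hs => hs.le
    have h3 : ∀ᶠ s : ℝ in nhdsWithin 0 (Set.Ioi 0), ∀ j, |s * h j| ≤ b j := by
      rw [Filter.eventually_all]
      intro j
      rcases eq_or_lt_of_le (hb0 j) with h4 | h4
      · refine Filter.Eventually.of_forall fun s => ?_
        rw [hzero j h4.symm, mul_zero, abs_zero, ← h4]
      · exact ((hlim _).eventually_lt_const h4).mono fun s hs => hs.le
    obtain ⟨s, ⟨⟨hs1, hs2⟩, hs3⟩, hs⟩ := (((h1.and h2).and h3).and self_mem_nhdsWithin).exists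
    refine ⟨s, hs, hs3, fun σ hσ => ?_⟩
    have habs : ∀ x : ℝ, |σ * x| = |s * x| := by
      intro x
      rcases hσ with rfl | rfl
      · rfl
      · rw [neg_mul, abs_neg]
    refine hloc (fun j => b j + σ * h j) (fun j => ?_) (fun v hv => ?_)
    · rw [add_sub_cancel_left, habs]
      exact hs1 j
    · have e1 : ∑ j, (b j + σ * h j) * v j = ∑ j, b j * v j + σ * ∑ j, (h j : ℝ) * v j := by
        rw [Finset.mul_sum, ← Finset.sum_add_distrib]
        exact Finset.sum_congr rfl fun j _ => by ring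
      rw [e1]
      have h4 := hs2 v hv
      have h5 : σ * ∑ j, (h j : ℝ) * v j ≤ |s * ∑ j, (h j : ℝ) * v j| := by
        rw [← habs]
        exact le_abs_self _
      linarith
  refine exists_line b Q th hth (fun h hh h0 => ?_) fun h hh h0 hq => ?_
  rotate_left
  · obtain ⟨s, hs, hs3, hy⟩ := hnear h hh
    refine hdef h s hs hs3 (hy s (Or.inl rfl)) ?_ (hbe0 h hh h0) hq
    have h4 := hy (-s) (Or.inr rfl)
    have e1 : (fun j => t * (b j - s * h j)) = fun j => t * (b j + -s * h j) := by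
      funext j
      ring
    rw [e1]
    exact h4
  have hbeh : ∑ j, (be j : ℝ) * h j = 0 := by exact_mod_cast hbe0 h hh h0
  have hthh : ∑ j, (th j : ℝ) * h j = 0 := by exact_mod_cast h0
  obtain ⟨s, hs, hs3, hNear⟩ := hnear h hh
  by_contra hne
  set q := ∑ i, ∑ j, (Q i j : ℝ) * b i * h j with hq
  set q' := ∑ i, ∑ j, (Q i j : ℝ) * h i * h j with hq'
  -- the sign
  obtain ⟨σ, hσ, hσq⟩ : ∃ σ : ℝ, (σ = s ∨ σ = -s) ∧ 0 < σ * q := by
    rcases lt_or_gt_of_ne hne with h | h
    · exact ⟨-s, Or.inr rfl, by rw [neg_mul, neg_pos]; exact mul_neg_of_pos_of_neg hs h⟩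
    · exact ⟨s, Or.inl rfl, mul_pos hs h⟩
  have habs : ∀ x : ℝ, |σ * x| = |s * x| := by
    intro x
    rcases hσ with rfl | rfl
    · rfl
    · rw [neg_mul, abs_neg]
  have hy : (fun j => t * (b j + σ * h j)) ∈ N := hNear σ hσ
  -- the quadratic inequality
  have hquad : ∀ μ : ℝ, 0 < μ → μ ≤ 1 →
      2 * (1 - μ * (1 - t)) * (μ * t) * (σ * q) + (μ * t * σ) ^ 2 * q' ≤ (μ * (1 - t)) ^ 2 := by
    intro μ hμ0 hμ1
    set u := 1 - μ * (1 - t) with hu
    have hu0 : 0 < u := by nlinarith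
    have hu1 : u < 1 := by nlinarith
    set w := μ * t * σ with hw
    have hz : (fun j => u * b j + w * h j) ∈ N := by
      have h4 := hN hb hy (by linarith : (0:ℝ) ≤ 1 - μ) hμ0.le (by ring)
      have e1 : (1 - μ) • b + μ • (fun j => t * (b j + σ * h j)) = fun j => u * b j + w * h j := by
        funext j
        simp only [Pi.add_apply, Pi.smul_apply, smul_eq_mul]
        rw [hu, hw]
        ring
      rwa [e1] at h4
    have hlin : ∀ a : J → ℚ, ∑ j, (a j : ℝ) * h j = 0 →
        ∑ j, (a j : ℝ) * (u * b j + w * h j) = u * ∑ j, a j * b j := by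
      intro a ha
      have e1 : ∑ j, (a j : ℝ) * (u * b j + w * h j) =
          u * ∑ j, a j * b j + w * ∑ j, (a j : ℝ) * h j := by
        rw [Finset.mul_sum, Finset.mul_sum, ← Finset.sum_add_distrib]
        exact Finset.sum_congr rfl fun j _ => by ring
      rw [e1, ha, mul_zero, add_zero]
    have hpos : ∀ j, 0 ≤ u * b j + w * h j := by
      intro j
      have h4 : |σ * (h j : ℝ)| ≤ b j := by rw [habs]; exact hs3 j
      have h5 : -(σ * (h j : ℝ)) ≤ b j := (neg_le_abs _).trans h4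
      have h6 : 0 ≤ (u - μ * t) * b j := mul_nonneg (by rw [hu]; nlinarith) (hb0 j)
      have h7 : 0 ≤ (μ * t) * (b j + σ * h j) :=
        mul_nonneg (mul_nonneg hμ0.le ht0.le) (by linarith)
      rw [hw]
      nlinarith
    have h4 := hM _ hz hpos u hu0 hu1 (hlin th hthh)
    have e2 : ∑ i, ∑ j, (Q i j : ℝ) * (u * b i + w * h i) * (u * b j + w * h j) =
        u ^ 2 * (∑ i, ∑ j, (Q i j : ℝ) * b i * b j) + 2 * u * w * q + w ^ 2 * q' := by
      have e3 : ∑ i, ∑ j, (Q i j : ℝ) * h i * b j = q := by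
        rw [hq, Finset.sum_comm]
        refine Finset.sum_congr rfl fun i _ => Finset.sum_congr rfl fun j _ => ?_
        rw [hQ j i]
        ring
      have e4 : ∑ i, ∑ j, (Q i j : ℝ) * (u * b i + w * h i) * (u * b j + w * h j) =
          u ^ 2 * (∑ i, ∑ j, (Q i j : ℝ) * b i * b j) +
          u * w * (∑ i, ∑ j, (Q i j : ℝ) * b i * h j) +
          u * w * (∑ i, ∑ j, (Q i j : ℝ) * h i * b j) +
          w ^ 2 * (∑ i, ∑ j, (Q i j : ℝ) * h i * h j) := by
        simp only [Finset.mul_sum]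
        simp only [← Finset.sum_add_distrib]
        exact Finset.sum_congr rfl fun i _ => Finset.sum_congr rfl fun j _ => by ring
      rw [e4, e3, ← hq, ← hq']
      ring
    simp only [hlin be hbeh, e2] at h4
    have e5 : ∑ i, ∑ j, (Q i j : ℝ) * b i * b j = 2 * ∑ j, (be j : ℝ) * b j - 1 := by linarith
    rw [e5] at h4
    have e6 : w = μ * t * σ := hw
    have e7 : 2 * u * w * q = 2 * u * (μ * t) * (σ * q) := by rw [e6]; ring
    have e8 : μ * (1 - t) = 1 - u := by rw [hu]; ring
    rw [e8]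
    nlinarith
  -- `μ` small
  set K := (1 - t) ^ 2 + (t * σ) ^ 2 * |q'| with hK
  have hK0 : 0 < K := by
    have : 0 < (1 - t) ^ 2 := by
      have : 0 < 1 - t := by linarith
      positivity
    positivity
  set r := t * (σ * q) with hr
  have hr0 : 0 < r := mul_pos ht0 hσq
  obtain ⟨μ, hμ0, hμ1, hμ2⟩ : ∃ μ : ℝ, 0 < μ ∧ μ ≤ 1 / 2 ∧ μ * K < r := by
    refine ⟨min (1 / 2) (r / (2 * K)), lt_min (by norm_num) (by positivity), min_le_left _ _, ?_⟩
    have h4 : min (1 / 2) (r / (2 * K)) * K ≤ r / (2 * K) * K :=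
      mul_le_mul_of_nonneg_right (min_le_right _ _) hK0.le
    have h5 : r / (2 * K) * K = r / 2 := by field_simp
    linarith
  have h4 := hquad μ hμ0 (by linarith)
  have h5 : 1 / 2 ≤ 1 - μ * (1 - t) := by nlinarith
  have h6 : μ * r ≤ 2 * (1 - μ * (1 - t)) * (μ * t) * (σ * q) := by
    have : 2 * (1 - μ * (1 - t)) * (μ * t) * (σ * q) = (2 * (1 - μ * (1 - t))) * (μ * r) := by
      rw [hr]; ring
    rw [this]
    have h7 : 0 < μ * r := mul_pos hμ0 hr0
    nlinarith
  have h7 : -((μ * t * σ) ^ 2 * |q'|) ≤ (μ * t * σ) ^ 2 * q' := by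
    have h8 : -|q'| ≤ q' := neg_abs_le q'
    have h9 : 0 ≤ (μ * t * σ) ^ 2 := sq_nonneg _
    nlinarith
  have h8 : μ * r ≤ μ ^ 2 * K := by
    rw [hK]
    nlinarith
  have h9 : μ ^ 2 * K < μ * r := by
    have : μ * (μ * K) < μ * r := mul_lt_mul_of_pos_left hμ2 hμ0
    nlinarith
  linarith

/-- A vector with nonnegative coefficients in a rational direction is a multiple of an integral one. -/
theorem exists_nat (b : J → ℝ) (hb : ∀ j, 0 ≤ b j) (c : ℝ) (q : J → ℚ) (h : ∀ j, b j = c * q j) :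
    ∃ (β : ℝ) (s : J → ℕ), 0 ≤ β ∧ ∀ j, b j = β * s j := by
  classical
  let d : ℕ := ∏ j, (q j).den
  have hd : 0 < d := Finset.prod_pos fun j _ => (q j).pos
  have h1 : ∀ j, ∃ z : ℕ, |q j| * d = z := by
    intro j
    obtain ⟨k, hk⟩ : (q j).den ∣ d := Finset.dvd_prod_of_mem _ (Finset.mem_univ j)
    refine ⟨(q j).num.natAbs * k, ?_⟩
    have h2 : |q j| * (q j).den = (q j).num.natAbs := by
      have h3 : |q j * (q j).den| = |((q j).num : ℚ)| := by rw [Rat.mul_den_eq_num]
      rw [abs_mul, Nat.abs_cast] at h3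
      rw [h3, Nat.cast_natAbs, Int.cast_abs]
    rw [hk]
    push_cast
    rw [← mul_assoc, h2]
  choose z hz using h1
  refine ⟨|c| / d, z, by positivity, fun j => ?_⟩
  have h2 : b j = |c| * |(q j : ℝ)| := by
    rw [← abs_mul, ← h, abs_of_nonneg (hb j)]
  have h3 : (z j : ℝ) = |(q j : ℝ)| * d := by
    have := congrArg (fun x : ℚ => (x : ℝ)) (hz j)
    push_cast at this
    exact this.symm
  have hd' : (d : ℝ) ≠ 0 := by exact_mod_cast hd.ne'
  rw [h3, h2]
  field_simp

end Pool.Agent.H87.FB
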