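import Mathlib

/-!
# MP_5ee2d0_ag: a minimal point of a rational polyhedron is rational
-/

namespace Pool.Agent.H87.FB

/-- Let `V` be a finite set of integral vectors, `x` a point of the polyhedron `x_0 = 1`, `x.v ≤ 0` for
all `v` in `V`, such that all points of the polyhedron near `x` are at least `x`. Then `x` is
rational. -/
theorem exists_rat {J : Type} [Fintype J] (V : Set (J → ℤ)) (hfin : V.Finite) (x : J → ℝ) (j₀ : J)
    (h0 : x j₀ = 1) (hV : ∀ v ∈ V, ∑ j, x j * v j ≤ 0) (e : ℝ) (he : 0 < e)
    (hmin : ∀ y : J → ℝ, (∀ j, |y j - x j| < e) → y j₀ = 1 → (∀ v ∈ V, ∑ j, y j * v j ≤ 0) →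
      ∀ j, x j ≤ y j) : ∃ q : J → ℚ, ∀ j, x j = q j := by
  classical
  -- the linear system of the tight inequalities has only the solution zero
  have key : ∀ u : J → ℝ, u j₀ = 0 →
      (∀ v ∈ V, ∑ j, x j * v j = 0 → ∑ j, u j * v j = 0) → ∀ j, u j = 0 := by
    intro u hu0 hu
    -- a small multiple of `u`
    have h1 : ∀ᶠ s : ℝ in nhdsWithin 0 (Set.Ioi 0), ∀ j, |s * u j| < e := by
      rw [Filter.eventually_all]
      intro j
      have : Filter.Tendsto (fun s : ℝ => |s * u j|) (nhds 0) (nhds |0 * u j|) :=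
        (continuous_abs.comp (continuous_id.mul continuous_const)).tendsto 0
      rw [zero_mul, abs_zero] at this
      exact (this.mono_left nhdsWithin_le_nhds).eventually_lt_const he
    have h2 : ∀ᶠ s : ℝ in nhdsWithin 0 (Set.Ioi 0), ∀ v ∈ V,
        ∑ j, x j * v j + |s * ∑ j, u j * v j| ≤ 0 := by
      rw [Set.Finite.eventually_all hfin]
      intro v hv
      rcases eq_or_lt_of_le (hV v hv) with h | h
      · refine Filter.Eventually.of_forall fun s => ?_
        rw [h, hu v hv h, mul_zero, abs_zero, add_zero]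
      · have : Filter.Tendsto (fun s : ℝ => ∑ j, x j * v j + |s * ∑ j, u j * v j|) (nhds 0)
            (nhds (∑ j, x j * v j + |0 * ∑ j, u j * v j|)) :=
          (continuous_const.add (continuous_abs.comp
            (continuous_id.mul continuous_const))).tendsto 0
        rw [zero_mul, abs_zero, add_zero] at this
        exact ((this.mono_left nhdsWithin_le_nhds).eventually_lt_const h).mono fun s hs => hs.le
    obtain ⟨s, ⟨hs1, hs2⟩, hs⟩ := ((h1.and h2).and self_mem_nhdsWithin).exists
    have hs : 0 < s := hs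
    have h3 : ∀ σ : ℝ, (σ = s ∨ σ = -s) → ∀ j, x j ≤ x j + σ * u j := by
      intro σ hσ
      refine hmin (fun j => x j + σ * u j) (fun j => ?_) ?_ (fun v hv => ?_)
      · rw [add_sub_cancel_left]
        rcases hσ with rfl | rfl
        · exact hs1 j
        · rw [neg_mul, abs_neg]; exact hs1 j
      · rw [hu0, mul_zero, add_zero, h0]
      · have e1 : ∑ j, (x j + σ * u j) * v j = ∑ j, x j * v j + σ * ∑ j, u j * v j := by
          rw [Finset.mul_sum, ← Finset.sum_add_distrib]
          exact Finset.sum_congr rfl fun j _ => by ring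
        rw [e1]
        have h4 := hs2 v hv
        have h5 : σ * ∑ j, u j * (v j : ℝ) ≤ |s * ∑ j, u j * v j| := by
          rcases hσ with rfl | rfl
          · exact le_abs_self _
          · rw [neg_mul]; exact neg_le_abs _
        linarith
    intro j
    have h4 := h3 s (Or.inl rfl) j
    have h5 := h3 (-s) (Or.inr rfl) j
    have h6 : 0 ≤ s * u j := by linarith
    have h7 : s * u j ≤ 0 := by linarith
    have h8 : s * u j = 0 := le_antisymm h7 h6
    exact (mul_eq_zero.1 h8).resolve_left hs.ne'
  -- a rational linear function on the reals with value one at one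
  obtain ⟨φ, hφ⟩ : ∃ φ : ℝ →ₗ[ℚ] ℚ, φ 1 = 1 := by
    obtain ⟨g, hg⟩ := LinearMap.exists_leftInverse_of_injective
      (LinearMap.toSpanSingleton ℚ ℝ (1 : ℝ)) (by
        rw [LinearMap.ker_eq_bot]
        intro a b h
        simp only [LinearMap.toSpanSingleton_apply] at h
        have : ((a : ℚ) : ℝ) = (b : ℝ) := by
          simpa [Rat.smul_def] using h
        exact_mod_cast this)
    refine ⟨g, ?_⟩
    have := congrArg (fun f : ℚ →ₗ[ℚ] ℚ => f 1) hg
    simpa using this
  have hφ2 : ∀ v : J → ℤ, φ (∑ j, x j * v j) = ∑ j, φ (x j) * v j := by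
    intro v
    rw [map_sum]
    refine Finset.sum_congr rfl fun j _ => ?_
    have : x j * (v j : ℝ) = (v j : ℤ) • x j := by
      rw [zsmul_eq_mul, mul_comm]
    rw [this, map_zsmul, zsmul_eq_mul, mul_comm]
  refine ⟨fun j => φ (x j), fun j => ?_⟩
  have h1 := key (fun j => x j - ((φ (x j) : ℚ) : ℝ)) (by
    rw [h0, hφ]
    norm_num) (fun v hv htight => by
    have h2 : ∑ j, (x j - ((φ (x j) : ℚ) : ℝ)) * (v j : ℝ) =
        ∑ j, x j * v j - ((∑ j, φ (x j) * (v j : ℚ) : ℚ) : ℝ) := by
      push_cast
      rw [← Finset.sum_sub_distrib]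
      exact Finset.sum_congr rfl fun j _ => by ring
    rw [h2, htight, ← hφ2, htight, map_zero]
    norm_num) j
  linarith

end Pool.Agent.H87.FB
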