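import Mathlib

/-!
# MP_5ee2d0_ag: termination of a program on a fourfold

`X` is a smooth projective fourfold and `K_X ~ 0`, `L` a nef class, `x` a b-divisor over `X` with real
coefficients `x_E ≥ 0`, finitely many of them not zero for the prime divisors of `X`, such that `L - t x` is
b-nef for `0 ≤ t ≤ t*`, and `a_E` are the discrepancies over `X` (zero for the prime divisors of `X`). Let
`lam` be smaller than the log canonical threshold of `x`, and let `Y → X` be `Q`-factorial with the
exceptional divisors `E` with `a_E ≤ lam x_E`; suppose that `a_E = lam x_E` holds for no `E` with `x_E > 0`. Let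
`F_j` be the prime divisors of `Y` with `x_j > 0`; all the exceptional divisors of `Y → X` are among them,
and `K_Y = SUM a_j F_j`. Then the steps of the program for `D = L - t (SUM x_j F_j)` on `Y`, `t` small, are
small and `L`-trivial, all the models `Y_i` are terminal (the divisors `E` exceptional over `Y` satisfy
`a_E - lam x_E > 0`), so they are smooth in codimension two. We show that there is no infinite sequence
of steps.

Let `E` be a prime divisor exceptional over `Y` with `a_E - lam x_E ≤ 1 - del`, where `del > 0` is the
minimum of the numbers `lam x_j - a_j`. The blow up of a surface which is contained in one of the `F_j` is of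
this kind.
-/

namespace Pool.Agent.H87.FB

/-- An infinite sequence of steps `Y_0 ⇢ Y_1 ⇢ ...` of the program for `D`. -/
structure Steps where
  /-- the prime divisors `F_j` of `Y` with `x_j > 0` -/
  J : Type
  [fin : Fintype J]
  x : J → ℝ
  x_pos : ∀ j, 0 < x j
  /-- the prime divisors `E` exceptional over `Y` with `a_E - lam x_E ≤ 1 - del` -/
  A : Type
  /-- the coefficient `x_E`; it is bounded, since `x_E` is at most `(1 + a_E) / c`, `c` the log canonical
  threshold of `x`, which is larger than `lam` -/
  coef : A → ℝ
  C : ℝ
  coef_le : ∀ E, coef E ≤ C
  /-- the centre of `E` on `Y_i` is a surface -/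
  Surf : ℕ → A → Prop
  /-- the centre of `E` on `Y_i` lies in the locus of step `i`; equivalently, its centre on `Y_(i+1)` lies
  in the locus created by the step -/
  Inv : ℕ → A → Prop
  /-- the multiplicity along `E` of the pull back of `F_j` on `Y_i` -/
  ord : ℕ → A → J → ℝ
  /-- a terminal variety is smooth in codimension two -/
  int : ∀ i E, Surf i E → ∀ j, ∃ z : ℕ, ord i E j = z
  /-- negativity lemma: the pull back of `L - t x` from `Y_i` is at least `L - t x`, since this is b-nef -/
  le : ∀ i E, ∑ j, x j * ord i E j ≤ coef E
  /-- negativity lemma -/
  mono : ∀ i E, ∑ j, x j * ord i E j ≤ ∑ j, x j * ord (i + 1) E j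
  mono_lt : ∀ i E, Inv i E → ∑ j, x j * ord i E j < ∑ j, x j * ord (i + 1) E j
  /-- Let `W` be a log resolution of `Y_0` and of an approximation of `x` (Demailly). The discrepancies of
  the divisors which are exceptional over `W` show: only finitely many `E` are not of the following
  form: `E` is the weighted blow up of a surface `S` in `F_j`, with weights `n` for `F_j` and `1` for `S`,
  where `F_j` is the only component which contains `S`. (If `F_i` and `F_j` meet in a surface then the sum
  of their coefficients `lam x - a` is smaller than one.) -/
  off : {E | ¬ Surf 0 E}.Finite
  /-- A class `D + e H` contains an effective divisor `G` which does not contain `F_j` and the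
  multiplicities of which are, up to a small number, at least `t (coef E - ∑ x_j ord_E(F_j))`. The
  restriction of `G` to `F_j` has at least this multiplicity along `S`. So for every `j` and every weight
  `n` the sum is at most the degree of `D` on `F_j`, divided by `t`. The weights are bounded. -/
  M : ℝ
  bound : ∀ S : Finset A, (∀ E ∈ S, Surf 0 E) → ∑ E ∈ S, (coef E - ∑ j, x j * ord 0 E j) ≤ M
  /-- the dimension of the span of the classes of surfaces in `H_4(Y_i, ℚ)` -/
  rk : ℕ → ℕ
  /-- Kawamata, Matsuda, Matsuki 1987, 5-1-15 to 5-1-17: if the locus created by step `i` contains no
  surface then the locus of the step contains a surface, and the dimension drops. If it contains a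
  surface `S` then `S` is contained in some `F_j` with `x_j > 0`, since `L` has degree zero and `D` positive
  degree on the created curves; let `E` be the blow up of `S`. -/
  kmm : ∀ i, (∀ E, Inv i E → ¬ Surf (i + 1) E) → rk (i + 1) < rk i

attribute [instance] Steps.fin

end Pool.Agent.H87.FB
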