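import Pool.Agent.H87.FB.Forms
import Pool.Agent.H87.FB.Line
import Pool.Agent.H87.FB.Rational

/-!
# MP_5ee2d0_ag: the direction of the extremal divisor is rational
-/

namespace Pool.Agent.H87.FB

open Pool.Agent.H15.XF

variable {r : ℕ} {B : BCl r} {L : Fin r → ℝ} {a : B.D → ℕ} {x : B.D → ℝ} {lam : ℝ}

/-- the class of `L - ∑ y_j F_j` -/
noncomputable def vec (Y : Last B L a x lam) (y : Y.J → ℝ) : B.V := B.pb L - ∑ j, y j • Y.phi j

variable (Y : Last B L a x lam)

theorem tr_sum_phi (y : Y.J → ℝ) : B.tr (∑ j, y j • Y.phi j) = 0 := by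
  rw [BCl.tr_sum]
  exact Finset.sum_eq_zero fun j _ => by rw [BCl.tr_smul, Y.tr_phi, smul_zero]

theorem o_sum_phi (y : Y.J → ℝ) (E : B.D) :
    B.o (∑ j, y j • Y.phi j) E = ∑ j, y j * B.o (Y.phi j) E := by
  rw [BCl.o_sum]
  exact Finset.sum_congr rfl fun j _ => by rw [BCl.o_smul]

theorem o_sum_F (y : Y.J → ℝ) (i : Y.J) : B.o (∑ j, y j • Y.phi j) (Y.F i) = -y i := by
  rw [o_sum_phi, Finset.sum_eq_single i]
  · rw [Y.o_phi]; ring
  · intro j _ hj
    rw [Y.o_phi' i j hj.symm, mul_zero]
  · intro h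
    exact absurd (Finset.mem_univ i) h

theorem o_sum_X (y : Y.J → ℝ) (G : B.D) (hG : B.X G) (h : ∀ i, Y.F i ≠ G) :
    B.o (∑ j, y j • Y.phi j) G = 0 := by
  rw [o_sum_phi]
  exact Finset.sum_eq_zero fun j _ => by rw [Y.o_X j G hG h, mul_zero]

theorem tr_vec (y : Y.J → ℝ) : B.tr (vec Y y) = L := by
  rw [vec, BCl.tr_sub, tr_sum_phi, B.tr_pb, sub_zero]

theorem o_vec (y : Y.J → ℝ) (E : B.D) : B.o (vec Y y) E = -∑ j, y j * B.o (Y.phi j) E := by
  rw [vec, BCl.o_sub, BCl.o_pb', o_sum_phi, zero_sub]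

theorem o_vec_F (y : Y.J → ℝ) (i : Y.J) : B.o (vec Y y) (Y.F i) = y i := by
  rw [vec, BCl.o_sub, BCl.o_pb', o_sum_F]
  ring

theorem good_vec {y : Y.J → ℝ} (hy : ∀ j, 0 ≤ y j) (h : B.Nef (vec Y y)) : Good B L (vec Y y) := by
  refine ⟨h, tr_vec Y y, B.neg _ h fun G hG => ?_⟩
  by_cases hF : ∃ i, Y.F i = G
  · obtain ⟨i, rfl⟩ := hF
    rw [o_vec_F]
    exact hy i
  · push Not at hF
    rw [vec, BCl.o_sub, BCl.o_pb', o_sum_X Y y G hG hF, sub_zero]

theorem vec_zero : vec Y 0 = B.pb L := by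
  rw [vec]
  simp

theorem convex_nef : Convex ℝ {y | B.Nef (vec Y y)} := by
  intro y hy z hz s t hs ht hst
  have h1 := B.nef_add _ _ (B.nef_smul s _ hs hy) (B.nef_smul t _ ht hz)
  have e : s • vec Y y + t • vec Y z = vec Y (s • y + t • z) := by
    have h2 : s • B.pb L + t • B.pb L = B.pb L := by rw [← add_smul, hst, one_smul]
    have h3 : ∑ j, (s • y + t • z) j • Y.phi j =
        s • ∑ j, y j • Y.phi j + t • ∑ j, z j • Y.phi j := by
      rw [Finset.smul_sum, Finset.smul_sum, ← Finset.sum_add_distrib]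
      refine Finset.sum_congr rfl fun j _ => ?_
      rw [Pi.add_apply, Pi.smul_apply, Pi.smul_apply, smul_eq_mul, smul_eq_mul, add_smul, mul_smul,
        mul_smul]
    rw [vec, vec, vec, h3, smul_sub, smul_sub]
    nth_rewrite 3 [← h2]
    abel
  rw [e] at h1
  exact h1

/-- the local statement with `t` small -/
theorem local_small (hL : B.Nef (B.pb L)) (h : LocalStatement Y) (t₀ : ℝ) (ht₀ : 0 < t₀) :
    ∃ (V : Set (Y.J → ℤ)) (e t : ℝ), V.Finite ∧ 0 < e ∧ 0 < t ∧ t ≤ t₀ ∧
      (∀ j, e ≤ x (Y.F j)) ∧ (∀ v ∈ V, ∑ j, x (Y.F j) * v j ≤ 0) ∧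
      ∀ y : Y.J → ℝ, (∀ j, |y j - x (Y.F j)| < e) → (∀ v ∈ V, ∑ j, y j * v j ≤ 0) →
        B.Nef (vec Y fun j => t * y j) := by
  classical
  obtain ⟨V, e, t, hV, he, ht, hVx, hloc⟩ := h hL
  obtain ⟨d, hd, hdx⟩ : ∃ d : ℝ, 0 < d ∧ ∀ j, d ≤ x (Y.F j) := by
    rcases isEmpty_or_nonempty Y.J with hJ | hJ
    · exact ⟨1, one_pos, fun j => (hJ.false j).elim⟩
    · obtain ⟨i, hi⟩ := Finite.exists_min fun j => x (Y.F j)
      exact ⟨_, Y.pos i, hi⟩
  refine ⟨V, min e d, min t t₀, hV, lt_min he hd, lt_min ht ht₀, min_le_right _ _,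
    fun j => (min_le_right _ _).trans (hdx j), hVx, fun y hy hyV => ?_⟩
  have h1 := hloc y (fun j => (hy j).trans_le (min_le_left _ _)) hyV
  have e1 : B.pb L - t • ∑ j, y j • Y.phi j = vec Y fun j => t * y j := by
    rw [vec, Finset.smul_sum]
    simp only [smul_smul]
  rw [e1] at h1
  have h2 : B.Nef (vec Y 0) := by rw [vec_zero]; exact hL
  have h3 := (convex_nef Y) h2 h1 (a := 1 - min t t₀ / t) (b := min t t₀ / t)
    (by
      have : min t t₀ / t ≤ 1 := by
        rw [div_le_one ht]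
        exact min_le_left _ _
      linarith)
    (div_nonneg (lt_min ht ht₀).le ht.le) (by ring)
  have e2 : (1 - min t t₀ / t) • (0 : Y.J → ℝ) + (min t t₀ / t) • (fun j => t * y j) =
      fun j => min t t₀ * y j := by
    funext j
    simp only [Pi.add_apply, Pi.smul_apply, Pi.zero_apply, smul_eq_mul, mul_zero, zero_add]
    field_simp
  rw [e2] at h3
  exact h3

/-- **Case E.** -/
theorem ratE : RatE Y := by
  classical
  intro hT hLoc P hP hPx hx j₀ hmin
  obtain ⟨V, e, t, hV, he, ht, ht1, hex, hVx, hloc⟩ := local_small Y hT.nef hLoc 1 one_pos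
  have h0 : 0 < x (Y.F j₀) := Y.pos j₀
  obtain ⟨q, hq⟩ := exists_rat V hV (fun j => x (Y.F j) / x (Y.F j₀)) j₀ (div_self h0.ne')
    (fun v hv => by
      have e1 : ∑ j, x (Y.F j) / x (Y.F j₀) * v j = (∑ j, x (Y.F j) * v j) / x (Y.F j₀) := by
        rw [Finset.sum_div]
        exact Finset.sum_congr rfl fun j _ => by ring
      rw [e1]
      exact div_nonpos_of_nonpos_of_nonneg (hVx v hv) h0.le) (e / x (Y.F j₀)) (div_pos he h0)
    (fun y hy hy0 hyV => by
      set y' : Y.J → ℝ := fun j => y j * x (Y.F j₀) with hy'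
      have h1 : ∀ j, |y' j - x (Y.F j)| < e := by
        intro j
        have e1 : y' j - x (Y.F j) = (y j - x (Y.F j) / x (Y.F j₀)) * x (Y.F j₀) := by
          rw [hy']
          field_simp
        rw [e1, abs_mul, abs_of_pos h0, ← lt_div_iff₀ h0]
        exact hy j
      have h2 : ∀ v ∈ V, ∑ j, y' j * v j ≤ 0 := by
        intro v hv
        have e1 : ∑ j, y' j * v j = (∑ j, y j * v j) * x (Y.F j₀) := by
          rw [Finset.sum_mul]
          exact Finset.sum_congr rfl fun j _ => by rw [hy']; ring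
        rw [e1]
        exact mul_nonpos_of_nonpos_of_nonneg (hyV v hv) h0.le
      have h3 : ∀ j, 0 ≤ y' j := by
        intro j
        have := (abs_lt.1 (h1 j)).1
        have := hex j
        linarith
      have h4 := good_vec Y (fun j => mul_nonneg ht.le (h3 j)) (hloc y' h1 h2)
      have h5 := hmin _ h4 t ht.le ht1 (by
        rw [o_vec_F, hy']
        simp only [hy0, one_mul, le_refl])
      intro j
      have h6 := h5 (Y.F j)
      rw [o_vec_F] at h6
      have h7 : x (Y.F j) ≤ y' j := le_of_mul_le_mul_left h6 ht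
      rw [div_le_iff₀ h0]
      exact h7)
  refine ⟨x (Y.F j₀), q, h0, fun j => ?_⟩
  rw [← hq]
  field_simp

/-- **Case D.** -/
theorem ratD : RatD Y := by
  classical
  intro hT hM hLoc P hP hPx hPP hx hmin hlt hrat hrat' hind
  obtain ⟨V, e, t, hV, he, ht, ht1, hex, hVx, hloc⟩ := local_small Y hT.nef hLoc (1 / 2) (by norm_num)
  set A := B.pb B.A with hA
  set L' := B.pb L with hL'
  set b : Y.J → ℝ := fun j => x (Y.F j) with hb
  have hb0 : ∀ j, 0 < b j := Y.pos
  -- `P` is the class of `b`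
  have hPb : vec Y b = P := by
    have h1 : vec Y b - P = 0 := by
      refine B.ext _ ?_ ?_
      · rw [BCl.tr_sub, tr_vec, hP.2.1, sub_self]
      · funext E
        rw [BCl.o_sub, o_vec, hPx, hx E, hb]
        simp
    exact sub_eq_zero.1 h1
  obtain ⟨q₀, hq₀⟩ := hrat
  have hLL : 0 < B.I L' L' A A := hT.pos
  have hq₀pos : (0 : ℝ) < q₀ := hq₀ ▸ hLL
  -- the products `L.F_j.A.A`
  have hphi : ∀ j, ∃ q : ℚ, B.I (Y.phi j) L' A A = q := by
    intro j
    have h1 := projFin (Y.phi j) (if B.X (Y.F j) then {Y.F j} else ∅) (Y.tr_phi j)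
      (by
        intro G hG
        split_ifs at hG with h
        · rw [Finset.mem_singleton] at hG
          rw [hG]; exact h
        · exact absurd hG (Finset.notMem_empty G))
      (by
        intro G hG hGS
        by_cases hF : ∃ i, Y.F i = G
        · obtain ⟨i, rfl⟩ := hF
          have hij : i ≠ j := by
            rintro rfl
            rw [if_pos hG] at hGS
            exact hGS (Finset.mem_singleton_self _)
          exact Y.o_phi' i j hij
        · push Not at hF
          exact Y.o_X j G hG hF) L B.A B.A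
    split_ifs at h1 with h
    · rw [Finset.sum_singleton, Y.o_phi, neg_mul, one_mul, neg_neg] at h1
      obtain ⟨q, hq⟩ := hrat' (Y.F j) h
      refine ⟨q, ?_⟩
      rw [h1, B.symm12, hq]
    · rw [Finset.sum_empty, neg_zero] at h1
      exact ⟨0, by rw [h1]; norm_num⟩
  choose be hbe using hphi
  choose Q hQ using Y.ratI
  have hQ' : ∀ i j, B.I (Y.phi i) (Y.phi j) A A = Q i j := hQ
  have hQs : ∀ i j, Q i j = Q j i := by
    intro i j
    have : (Q i j : ℝ) = Q j i := by rw [← hQ' i j, ← hQ' j i, B.symm12]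
    exact_mod_cast this
  -- products with `L - ∑ y_j F_j`
  have hIs : ∀ (y : Y.J → ℝ) (c d f : B.V), B.I (∑ j, y j • Y.phi j) c d f =
      ∑ j, y j * B.I (Y.phi j) c d f := by
    intro y c d f
    rw [BCl.I1_sum]
    exact Finset.sum_congr rfl fun j _ => by rw [BCl.I1_smul]
  have hI1 : ∀ y : Y.J → ℝ, B.I (∑ j, y j • Y.phi j) L' A A = q₀ * ∑ j, ((be j / q₀ : ℚ) : ℝ) * y j := by
    intro y
    rw [hIs, Finset.mul_sum]
    refine Finset.sum_congr rfl fun j _ => ?_
    rw [hbe]
    push_cast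
    field_simp
  have hI2 : ∀ y : Y.J → ℝ, B.I (∑ j, y j • Y.phi j) (∑ j, y j • Y.phi j) A A =
      q₀ * ∑ i, ∑ j, ((Q i j / q₀ : ℚ) : ℝ) * y i * y j := by
    intro y
    rw [hIs, Finset.mul_sum]
    refine Finset.sum_congr rfl fun i _ => ?_
    rw [B.symm12, hIs, Finset.mul_sum, Finset.mul_sum]
    refine Finset.sum_congr rfl fun j _ => ?_
    rw [hQ', hQs]
    push_cast
    field_simp
  have hLvec : ∀ y : Y.J → ℝ, B.I L' (vec Y y) A A = q₀ * (1 - ∑ j, ((be j / q₀ : ℚ) : ℝ) * y j) := by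
    intro y
    rw [vec, BCl.I2_sub, ← hL', hq₀, B.symm12, hI1]
    ring
  have hvv : ∀ y : Y.J → ℝ, B.I (vec Y y) (vec Y y) A A = q₀ * (1 -
      2 * ∑ j, ((be j / q₀ : ℚ) : ℝ) * y j + ∑ i, ∑ j, ((Q i j / q₀ : ℚ) : ℝ) * y i * y j) := by
    intro y
    rw [vec, BCl.I1_sub, BCl.I2_sub, BCl.I2_sub, ← hL', hq₀, hI2, hI1, B.symm12 L', hI1]
    ring
  -- the maximum of `be`
  have hbepos : 0 < ∑ j, ((be j / q₀ : ℚ) : ℝ) * b j := by
    rw [← hPb, hLvec, hq₀] at hlt
    by_contra hcon
    push Not at hcon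
    nlinarith
  have hbe1 : ∑ j, ((be j / q₀ : ℚ) : ℝ) * b j ≤ 1 := by
    have h1 := B.nonneg L' P A A hT.nef hP.1 B.nef_A B.nef_A
    rw [← hPb, hLvec] at h1
    by_contra hcon
    push Not at hcon
    nlinarith
  obtain ⟨c, q, hcq⟩ := exists_line_of_sup {y | B.Nef (vec Y y)} (convex_nef Y) b
    (by
      show B.Nef (vec Y b)
      rw [hPb]
      exact hP.1)
    (fun j => (hb0 j).le) V hV hVx t e ht (by linarith) he
    (fun y hy hyV => hloc y hy hyV)
    (fun i j => Q i j / q₀) (fun i j => by rw [hQs]) (fun j => be j / q₀)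
    (fun j => be j / q₀) hbepos.ne' (Or.inr rfl)
    (by
      have h1 := hPP A A
      rw [← hPb, hvv] at h1
      exact (mul_eq_zero.1 h1).resolve_left hq₀pos.ne')
    (by
      intro y hy hy0 s hs0 hs1 hsy
      have hG := good_vec Y hy0 hy
      by_contra hcon
      push Not at hcon
      set β := ∑ j, ((be j / q₀ : ℚ) : ℝ) * y j with hβ
      set qy := 1 - 2 * β + ∑ i, ∑ j, ((Q i j / q₀ : ℚ) : ℝ) * y i * y j with hqy
      -- `u` slightly larger than `(1 - s) / s`
      obtain ⟨u, hu1, hu2⟩ : ∃ u : ℝ, (1 - s) / s < u ∧ 2 * u * (1 - β) < (1 + u) * qy := by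
        have h1 : ∀ᶠ u in nhds ((1 - s) / s), 2 * u * (1 - β) < (1 + u) * qy := by
          have hc : Continuous fun u : ℝ => 2 * u * (1 - β) := by fun_prop
          have hc' : Continuous fun u : ℝ => (1 + u) * qy := by fun_prop
          refine hc.continuousAt.eventually_lt hc'.continuousAt ?_
          have e1 : 2 * ((1 - s) / s) * (1 - β) = (2 * (1 - s) * (1 - β)) / s := by ring
          have e2 : (1 + (1 - s) / s) * qy = qy / s := by
            field_simp
            ring
          rw [e1, e2]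
          exact div_lt_div_of_pos_right hcon hs0
        have h2 : ∀ᶠ u in nhdsWithin ((1 - s) / s) (Set.Ioi ((1 - s) / s)),
            2 * u * (1 - β) < (1 + u) * qy := nhdsWithin_le_nhds h1
        obtain ⟨u, hu, hu'⟩ := (h2.and self_mem_nhdsWithin).exists
        exact ⟨u, hu', hu⟩
      have hu0 : 0 < u := lt_of_le_of_lt (div_nonneg (by linarith) hs0.le) hu1
      obtain ⟨w, hw, hwo⟩ := hM hT (vec Y y) u hG hu0 (by
        rw [← hL', ← hA, hLvec, hvv]
        have := mul_lt_mul_of_pos_left hu2 hq₀pos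
        linarith)
      -- `w` is at least `(1 + u) y`
      have h3 := B.eff ((vec Y y - L') - (1 + u)⁻¹ • (w - L') - (0 : B.V)) ?_ ?_ L' A A hT.nef
        B.nef_A B.nef_A
      · rw [sub_zero, BCl.I1_sub, BCl.I1_sub, BCl.I1_smul, BCl.I1_sub, B.symm12 (vec Y y), hLvec,
          hq₀, B.symm12 w] at h3
        have h4 := hmin w hw
        rw [← hPb, hLvec] at h4
        rw [← hβ, hsy] at h3
        have h5 : 0 < (1 + u)⁻¹ := by positivity
        have h6 : (1 + u)⁻¹ < s := by
          rw [inv_lt_comm₀ (by linarith) hs0]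
          have : (1 - s) / s = s⁻¹ - 1 := by field_simp
          rw [this] at hu1
          linarith
        set bb := ∑ j, ((be j / q₀ : ℚ) : ℝ) * b j with hbb
        have h7 : (1 + u)⁻¹ * (q₀ * (1 - bb)) ≤ (1 + u)⁻¹ * B.I L' w A A :=
          mul_le_mul_of_nonneg_left h4 h5.le
        have h8 : (1 + u)⁻¹ * (q₀ * bb) < s * (q₀ * bb) :=
          mul_lt_mul_of_pos_right h6 (mul_pos hq₀pos hbepos)
        nlinarith
      · rw [sub_zero, BCl.tr_sub, BCl.tr_sub, BCl.tr_smul, BCl.tr_sub, tr_vec, hw.2.1, hL', B.tr_pb]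
        simp
      · intro E
        rw [sub_zero, BCl.o_sub, BCl.o_sub, BCl.o_smul, BCl.o_sub, hL', BCl.o_pb']
        have h4 := hwo E
        have h5 : 0 < 1 + u := by linarith
        have h6 : B.o (vec Y y) E ≤ (1 + u)⁻¹ * B.o w E := by
          rw [inv_mul_eq_div, le_div_iff₀ h5]
          linarith
        linarith)
    (by
      intro h s hs hsb hyp hym hbeh hQh
      -- the two good classes
      have habs : ∀ j, -b j ≤ s * h j ∧ s * h j ≤ b j := fun j => abs_le.1 (hsb j)
      have h₂ := good_vec Y (y := fun j => t * (b j + s * h j))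
        (fun j => mul_nonneg ht.le (by linarith [(habs j).1])) hyp
      have h₁ := good_vec Y (y := fun j => t * (b j - s * h j))
        (fun j => mul_nonneg ht.le (by linarith [(habs j).2])) hym
      have hdiff : vec Y (fun j => t * (b j - s * h j)) - vec Y (fun j => t * (b j + s * h j)) =
          ∑ j, (2 * t * s * h j) • Y.phi j := by
        rw [vec, vec, sub_sub_sub_cancel_left, ← Finset.sum_sub_distrib]
        refine Finset.sum_congr rfl fun j _ => ?_
        rw [← sub_smul]
        congr 1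
        ring
      have hcast : ∑ j, ((be j / q₀ : ℚ) : ℝ) * h j = 0 := by exact_mod_cast hbeh
      have hcast2 : ∑ i, ∑ j, ((Q i j / q₀ : ℚ) : ℝ) * h i * h j = 0 := by exact_mod_cast hQh
      have hpos : 0 < B.I L' (vec Y fun j => t * (b j - s * h j)) A A := by
        rw [hLvec]
        have e1 : ∑ j, ((be j / q₀ : ℚ) : ℝ) * (t * (b j - s * h j)) =
            t * ∑ j, ((be j / q₀ : ℚ) : ℝ) * b j - t * s * ∑ j, ((be j / q₀ : ℚ) : ℝ) * h j := by
          rw [Finset.mul_sum, Finset.mul_sum, ← Finset.sum_sub_distrib]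
          exact Finset.sum_congr rfl fun j _ => by ring
        rw [e1, hcast]
        refine mul_pos hq₀pos ?_
        nlinarith
      have hz := class_zero hT h₁ h₂
        (by
          rw [hdiff, ← hL', ← hA, B.symm12, hI1]
          have e1 : ∑ j, ((be j / q₀ : ℚ) : ℝ) * (2 * t * s * h j) =
              2 * t * s * ∑ j, ((be j / q₀ : ℚ) : ℝ) * h j := by
            rw [Finset.mul_sum]
            exact Finset.sum_congr rfl fun j _ => by ring
          rw [e1, hcast, mul_zero, mul_zero])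
        hpos
        (by
          rw [hdiff, ← hA, hI2]
          have e1 : ∑ i, ∑ j, ((Q i j / q₀ : ℚ) : ℝ) * (2 * t * s * h i) * (2 * t * s * h j) =
              (2 * t * s) ^ 2 * ∑ i, ∑ j, ((Q i j / q₀ : ℚ) : ℝ) * h i * h j := by
            rw [Finset.mul_sum]
            refine Finset.sum_congr rfl fun i _ => ?_
            rw [Finset.mul_sum]
            exact Finset.sum_congr rfl fun j _ => by ring
          rw [e1, hcast2, mul_zero, mul_zero])
      rw [hdiff] at hz
      set w := ∑ j, (2 * t * s * h j) • Y.phi j with hw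
      have hwF : ∀ i, B.o w (Y.F i) = -(2 * t * s * h i) := fun i => o_sum_F Y _ i
      have hw0 : w = 0 := by
        refine eq_zero_of_class (tr_sum_phi Y _)
          ((Finset.univ.filter fun j => B.X (Y.F j)).image Y.F) ?_ ?_ hz ?_
        · intro G hG
          rw [Finset.mem_image] at hG
          obtain ⟨j, hj, rfl⟩ := hG
          exact (Finset.mem_filter.1 hj).2
        · intro G hG hGS
          refine o_sum_X Y _ G hG fun i hi => hGS ?_
          rw [Finset.mem_image]
          exact ⟨i, Finset.mem_filter.2 ⟨Finset.mem_univ i, hi ▸ hG⟩, hi⟩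
        · intro hsum
          rw [Finset.sum_image fun i _ j _ hij => Y.inj hij] at hsum
          have h1 := hind (fun j => if B.X (Y.F j) then B.o w (Y.F j) else 0)
            (fun j hj => if_neg hj) (by
              rw [← hsum, Finset.sum_filter]
              refine Finset.sum_congr rfl fun j _ => ?_
              split_ifs
              · rfl
              · rw [zero_smul])
          intro G hG
          rw [Finset.mem_image] at hG
          obtain ⟨j, hj, rfl⟩ := hG
          have h2 := h1 j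
          rwa [if_pos (Finset.mem_filter.1 hj).2] at h2
      funext i
      have h1 := hwF i
      rw [hw0] at h1
      have h2 : B.o (0 : B.V) (Y.F i) = 0 := by
        have := (IsLinearMap.mk' _ B.o_lin).map_zero
        exact congrFun this (Y.F i)
      rw [h2] at h1
      have h3 : (2 * t * s) * (h i : ℝ) = 0 := by linarith
      have h4 : (h i : ℝ) = 0 := (mul_eq_zero.1 h3).resolve_left (by positivity)
      exact_mod_cast h4)
  -- the sign
  rcases isEmpty_or_nonempty Y.J with hJ | hJ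
  · exact ⟨1, q, one_pos, fun j => (hJ.false j).elim⟩
  · obtain ⟨i⟩ := hJ
    have hc : c ≠ 0 := by
      rintro rfl
      have := hb0 i
      rw [hcq i, zero_mul] at this
      exact lt_irrefl _ this
    rcases lt_or_gt_of_ne hc with h | h
    · refine ⟨-c, fun j => -q j, by linarith, fun j => ?_⟩
      have := hcq j
      push_cast
      rw [neg_mul_neg]
      exact this
    · exact ⟨c, q, h, hcq⟩

end Pool.Agent.H87.FB
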