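import Pool.Agent.H15.XF.Lin

/-!
# MP_5ee2d0_ag: products of good classes
-/

namespace Pool.Agent.H87.FB

open Pool.Agent.H15.XF

variable {r : ℕ} {B : BCl r} {L : Fin r → ℝ}

/-- the projection formula for a b-divisor with finitely many components on `X` -/
theorem projFin (v : B.V) (S : Finset B.D) (h0 : B.tr v = 0) (hS : ∀ G ∈ S, B.X G)
    (h : ∀ G, B.X G → G ∉ S → B.o v G = 0) (x y z : Fin r → ℝ) :
    B.I v (B.pb x) (B.pb y) (B.pb z) =
      -∑ G ∈ S, B.o v G * B.I (B.pb (B.cl G)) (B.pb x) (B.pb y) (B.pb z) := by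
  classical
  have h1 : HasSum (fun G : {G // B.X G} => B.o v G • B.cl G) (∑ G ∈ S, B.o v G • B.cl G) := by
    have h2 : HasSum (fun G : {G // B.X G} => B.o v G • B.cl G)
        (∑ G ∈ S.subtype B.X, B.o v G • B.cl G) :=
      hasSum_sum_of_ne_finset_zero fun G hG => by
        rw [h G G.2 fun hn => hG (Finset.mem_subtype.2 hn), zero_smul]
    rwa [Finset.sum_subtype_of_mem (fun G => B.o v G • B.cl G) hS] at h2
  have h4 := (B.sum v).unique h1
  rw [h0, zero_sub, neg_eq_iff_eq_neg] at h4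
  have h5 : B.pb (∑ G ∈ S, B.o v G • B.cl G) = ∑ G ∈ S, B.o v G • B.pb (B.cl G) := by
    refine (map_sum (IsLinearMap.mk' _ B.pb_lin) _ _).trans ?_
    exact Finset.sum_congr rfl fun G _ => BCl.pb_smul _ _
  rw [B.proj, h4, ← zero_sub, BCl.pb_sub, BCl.pb_zero, BCl.I1_sub, BCl.I1_zero, zero_sub, h5,
    BCl.I1_sum]
  simp only [BCl.I1_smul]

theorem nef_zero : B.Nef 0 := by
  have h := B.nef_smul 0 (B.pb B.A) le_rfl B.nef_A
  rwa [zero_smul] at h

/-- A good class is at most `L`. -/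
theorem I_le {v : B.V} (hv : Good B L v) {a b c : B.V} (ha : B.Nef a) (hb : B.Nef b) (hc : B.Nef c) :
    B.I v a b c ≤ B.I (B.pb L) a b c := by
  have h := B.eff (B.pb L - v) (by rw [BCl.tr_sub, B.tr_pb, hv.2.1, sub_self]) (fun E => by
    rw [BCl.o_sub, BCl.o_pb', zero_sub]
    have := hv.2.2 E
    linarith) a b c ha hb hc
  rw [BCl.I1_sub] at h
  linarith

theorem LLv {v c : B.V} (hT : Two B L) (hv : Good B L v) (hc : B.Nef c) :
    B.I (B.pb L) (B.pb L) v c = 0 := by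
  refine le_antisymm ?_ (B.nonneg _ _ _ _ hT.nef hT.nef hv.1 hc)
  rw [B.symm23, B.symm12]
  refine (I_le hv hT.nef hT.nef hc).trans ?_
  rw [hT.cube]

theorem Lvv {v v' c : B.V} (hT : Two B L) (hv : Good B L v) (hv' : Good B L v') (hc : B.Nef c) :
    B.I (B.pb L) v v' c = 0 := by
  refine le_antisymm ?_ (B.nonneg _ _ _ _ hT.nef hv.1 hv'.1 hc)
  rw [B.symm12]
  refine (I_le hv hT.nef hv'.1 hc).trans ?_
  rw [LLv hT hv' hc]

theorem vvv {v v' v'' c : B.V} (hT : Two B L) (hv : Good B L v) (hv' : Good B L v')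
    (hv'' : Good B L v'') (hc : B.Nef c) : B.I v v' v'' c = 0 := by
  refine le_antisymm ?_ (B.nonneg _ _ _ _ hv.1 hv'.1 hv''.1 hc)
  refine (I_le hv hv'.1 hv''.1 hc).trans ?_
  rw [Lvv hT hv' hv'' hc]

theorem sq_sub_smul (w z M H : B.V) (l : ℝ) : B.I (w - l • z) (w - l • z) M H =
    B.I w w M H - 2 * l * B.I w z M H + l ^ 2 * B.I z z M H := by
  rw [BCl.I1_sub, BCl.I2_sub, BCl.I2_sub, BCl.I1_smul, BCl.I1_smul, BCl.I2_smul, BCl.I2_smul,
    B.symm12 z w]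
  ring

/-- An isotropic vector which is orthogonal to a positive vector is in the kernel of the form. -/
theorem ker {M H w z : B.V} (hM : B.Nef M) (hH : B.Nef H) (hz : 0 < B.I z z M H)
    (hwz : B.I w z M H = 0) (hww : B.I w w M H = 0) (u : B.V) : B.I w u M H = 0 := by
  set s := B.I u z M H / B.I z z M H with hs
  set u' := u - s • z with hu'
  have hu'z : B.I u' z M H = 0 := by
    rw [hu', BCl.I1_sub, BCl.I1_smul, hs]
    field_simp
    ring
  have hwu : B.I w u' M H = B.I w u M H := by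
    rw [hu', BCl.I2_sub, BCl.I2_smul, hwz, mul_zero, sub_zero]
  have hq : ∀ t : ℝ, 2 * t * B.I w u' M H + t ^ 2 * B.I u' u' M H ≤ 0 := by
    intro t
    have h1 := B.index M H (w + t • u') z hM hH hz (by
      rw [BCl.I1_add, BCl.I1_smul, hwz, hu'z, mul_zero, add_zero])
    rw [BCl.I1_add, BCl.I1_smul, BCl.I2_add, BCl.I2_add, BCl.I2_smul, BCl.I2_smul, hww,
      B.symm12 u' w] at h1
    nlinarith
  rw [← hwu]
  by_contra hne
  set p := B.I w u' M H with hp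
  set q := B.I u' u' M H with hq'
  have h1 : 0 < p ^ 2 := by positivity
  have h2 : 0 < |q| + 1 := by positivity
  have h3 := hq (p / (|q| + 1))
  have h4 : 2 * (p / (|q| + 1)) * p + (p / (|q| + 1)) ^ 2 * q =
      p ^ 2 * (2 * (|q| + 1) + q) / (|q| + 1) ^ 2 := by
    field_simp
  rw [h4] at h3
  have h5 : 0 < 2 * (|q| + 1) + q := by
    have := neg_abs_le q
    have := abs_nonneg q
    linarith
  have h6 : 0 < p ^ 2 * (2 * (|q| + 1) + q) / (|q| + 1) ^ 2 := by positivity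
  linarith

section

variable {H : B.V} (hT : Two B L) (hH : B.Nef H) (hHA : B.Nef (H - B.pb B.A))
include hT hH hHA

theorem LLHH : 0 < B.I (B.pb L) (B.pb L) H H := by
  have h1 : 0 ≤ B.I (B.pb L) (B.pb L) (H - B.pb B.A) H :=
    B.nonneg _ _ _ _ hT.nef hT.nef hHA hH
  have h2 : 0 ≤ B.I (B.pb L) (B.pb L) (B.pb B.A) (H - B.pb B.A) :=
    B.nonneg _ _ _ _ hT.nef hT.nef B.nef_A hHA
  rw [BCl.I3_sub] at h1
  rw [BCl.I4_sub] at h2
  have := hT.pos
  linarith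

omit hH in
theorem LLAH : 0 < B.I (B.pb L) (B.pb L) (B.pb B.A) H := by
  have h2 : 0 ≤ B.I (B.pb L) (B.pb L) (B.pb B.A) (H - B.pb B.A) :=
    B.nonneg _ _ _ _ hT.nef hT.nef B.nef_A hHA
  rw [BCl.I4_sub] at h2
  have := hT.pos
  linarith

/-- the vector `A + L` is positive for the form with `L` and `H` -/
theorem zL : 0 < B.I (B.pb B.A + B.pb L) (B.pb B.A + B.pb L) (B.pb L) H := by
  have h1 := B.nonneg _ _ _ _ B.nef_A B.nef_A hT.nef hH
  have h2 := LLAH hT hHA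
  have e1 : B.I (B.pb B.A) (B.pb L) (B.pb L) H = B.I (B.pb L) (B.pb L) (B.pb B.A) H := by
    rw [B.symm12, B.symm23]
  have e2 : B.I (B.pb L) (B.pb B.A) (B.pb L) H = B.I (B.pb L) (B.pb L) (B.pb B.A) H := by
    rw [B.symm23]
  rw [BCl.I1_add, BCl.I2_add, BCl.I2_add, hT.cube, e1, e2]
  linarith

omit hH in
theorem LvAH {v : B.V} (hv : Good B L v) (hpos : 0 < B.I (B.pb L) v (B.pb B.A) (B.pb B.A)) :
    0 < B.I (B.pb L) (B.pb B.A) v H := by
  have h2 : 0 ≤ B.I (B.pb L) v (B.pb B.A) (H - B.pb B.A) :=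
    B.nonneg _ _ _ _ hT.nef hv.1 B.nef_A hHA
  rw [BCl.I4_sub] at h2
  rw [B.symm23]
  linarith

/-- the vector `A + L` is positive for the form with `v` and `H` -/
theorem zv {v : B.V} (hv : Good B L v) (hpos : 0 < B.I (B.pb L) v (B.pb B.A) (B.pb B.A)) :
    0 < B.I (B.pb B.A + B.pb L) (B.pb B.A + B.pb L) v H := by
  have h1 := B.nonneg _ _ _ _ B.nef_A B.nef_A hv.1 hH
  have h2 := LvAH hT hHA hv hpos
  rw [BCl.I1_add, BCl.I2_add, BCl.I2_add, LLv hT hv hH, B.symm12 (B.pb B.A) (B.pb L)]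
  linarith

/-- Let `w` be the difference of two good classes, `L.w.A.A = 0`. Then `L.w.u.H = 0` for all `u`. -/
theorem Lw {v₁ v₂ : B.V} (h₁ : Good B L v₁) (h₂ : Good B L v₂)
    (h0 : B.I (B.pb L) (v₁ - v₂) (B.pb B.A) (B.pb B.A) = 0) (u : B.V) :
    B.I (v₁ - v₂) u (B.pb L) H = 0 := by
  have hA : B.Nef (B.pb B.A - B.pb B.A) := by rw [sub_self]; exact nef_zero
  have hww : ∀ H : B.V, B.Nef H → B.I (v₁ - v₂) (v₁ - v₂) (B.pb L) H = 0 := by
    intro H hH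
    rw [BCl.I1_sub, BCl.I2_sub, BCl.I2_sub]
    have e : ∀ v v' : B.V, Good B L v → Good B L v' → B.I v v' (B.pb L) H = 0 := by
      intro v v' hv hv'
      rw [B.symm23, B.symm12]
      exact Lvv hT hv hv' hH
    rw [e _ _ h₁ h₁, e _ _ h₁ h₂, e _ _ h₂ h₁, e _ _ h₂ h₂]
    ring
  have hwL : ∀ H : B.V, B.Nef H → B.I (v₁ - v₂) (B.pb L) (B.pb L) H = 0 := by
    intro H hH
    rw [BCl.I1_sub]
    have e : ∀ v : B.V, Good B L v → B.I v (B.pb L) (B.pb L) H = 0 := by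
      intro v hv
      rw [B.symm12, B.symm23]
      exact LLv hT hv hH
    rw [e _ h₁, e _ h₂, sub_self]
  -- the form with `L` and `A`
  have h1 : ∀ u : B.V, B.I (v₁ - v₂) u (B.pb L) (B.pb B.A) = 0 := by
    intro u
    refine ker hT.nef B.nef_A (zL hT B.nef_A hA) ?_ (hww _ B.nef_A) u
    rw [BCl.I2_add, hwL _ B.nef_A, add_zero, B.symm23, B.symm12, h0]
  refine ker hT.nef hH (zL hT hH hHA) ?_ (hww _ hH) u
  rw [BCl.I2_add, hwL _ hH, add_zero]
  have h2 := h1 H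
  rw [B.symm34, B.symm23, B.symm34] at h2
  rw [← h2]

/-- The form with a good class `v`, `L.v ≠ 0`. -/
theorem wv {v₁ v₂ : B.V} (h₁ : Good B L v₁) (h₂ : Good B L v₂)
    {v : B.V} (hv : Good B L v)
    (hpos : 0 < B.I (B.pb L) v (B.pb B.A) (B.pb B.A)) :
    ∃ l : ℝ, ∀ u : B.V, B.I (v₁ - v₂) u v H = l * B.I (B.pb L) u v H := by
  set z := B.pb B.A + B.pb L with hz
  have hLz : 0 < B.I (B.pb L) z v H := by
    rw [hz, BCl.I2_add, LLv hT hv hH, add_zero]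
    exact LvAH hT hHA hv hpos
  set l := B.I (v₁ - v₂) z v H / B.I (B.pb L) z v H with hl
  refine ⟨l, fun u => ?_⟩
  have hww : B.I (v₁ - v₂) (v₁ - v₂) v H = 0 := by
    rw [BCl.I1_sub, BCl.I2_sub, BCl.I2_sub, vvv hT h₁ h₁ hv hH, vvv hT h₁ h₂ hv hH,
      vvv hT h₂ h₁ hv hH, vvv hT h₂ h₂ hv hH]
    ring
  have hwL : B.I (v₁ - v₂) (B.pb L) v H = 0 := by
    rw [BCl.I1_sub, B.symm12 v₁, B.symm12 v₂, Lvv hT h₁ hv hH, Lvv hT h₂ hv hH, sub_self]
  have h1 := ker (w := (v₁ - v₂) - l • B.pb L) hv.1 hH (zv hT hH hHA hv hpos) (by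
      rw [← hz, BCl.I1_sub, BCl.I1_smul, hl]
      field_simp
      ring) (by
      rw [sq_sub_smul, hww, hwL, LLv hT hv hH]
      ring) u
  rw [BCl.I1_sub, BCl.I1_smul] at h1
  linarith

/-- Let `w` be the difference of two good classes, `L.w.A.A = 0` and `w.w.A.A = 0`. Then
`w.w.H.H = 0`. -/
theorem wwHH {v₁ v₂ : B.V} (h₁ : Good B L v₁) (h₂ : Good B L v₂)
    (h0 : B.I (B.pb L) (v₁ - v₂) (B.pb B.A) (B.pb B.A) = 0)
    (hpos : 0 < B.I (B.pb L) v₁ (B.pb B.A) (B.pb B.A))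
    (hq : B.I (v₁ - v₂) (v₁ - v₂) (B.pb B.A) (B.pb B.A) = 0) :
    B.I (v₁ - v₂) (v₁ - v₂) H H = 0 := by
  have hA : B.Nef (B.pb B.A - B.pb B.A) := by rw [sub_self]; exact nef_zero
  have hpos₂ : 0 < B.I (B.pb L) v₂ (B.pb B.A) (B.pb B.A) := by
    rw [BCl.I2_sub] at h0
    linarith
  -- the factors do not depend on `H`
  have key : ∀ v : B.V, Good B L v → 0 < B.I (B.pb L) v (B.pb B.A) (B.pb B.A) →
      ∃ l : ℝ, B.I (v₁ - v₂) v H H = l * B.I (B.pb L) v H H ∧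
        B.I (v₁ - v₂) v (B.pb B.A) (B.pb B.A) = l * B.I (B.pb L) v (B.pb B.A) (B.pb B.A) := by
    intro v hv hp
    obtain ⟨l, hl⟩ := wv hT hH hHA h₁ h₂ hv hp
    obtain ⟨l', hl'⟩ := wv hT B.nef_A hA h₁ h₂ hv hp
    have h3 := hl (B.pb B.A)
    have h4 := hl' H
    have e1 : ∀ x : B.V, B.I x H v (B.pb B.A) = B.I x (B.pb B.A) v H := by
      intro x
      rw [B.symm34, B.symm23, B.symm34]
    rw [e1, e1, h3] at h4
    have h5 := LvAH hT hHA hv hp
    have h6 : l = l' := mul_right_cancel₀ h5.ne' h4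
    refine ⟨l, ?_, ?_⟩
    · have := hl H
      rw [B.symm23, B.symm23 (B.pb L)] at this
      exact this
    · have := hl' (B.pb B.A)
      rw [B.symm23, B.symm23 (B.pb L), ← h6] at this
      exact this
  obtain ⟨l₁, a₁, b₁⟩ := key v₁ h₁ hpos
  obtain ⟨l₂, a₂, b₂⟩ := key v₂ h₂ hpos₂
  have h3 : B.I (B.pb L) v₂ H H = B.I (B.pb L) v₁ H H := by
    have := Lw hT hH hHA h₁ h₂ h0 H
    rw [BCl.I1_sub] at this
    have e1 : ∀ v : B.V, B.I (B.pb L) v H H = B.I v H (B.pb L) H := by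
      intro v
      rw [B.symm12, B.symm23]
    rw [e1, e1]
    linarith
  have h4 : B.I (B.pb L) v₂ (B.pb B.A) (B.pb B.A) = B.I (B.pb L) v₁ (B.pb B.A) (B.pb B.A) := by
    rw [BCl.I2_sub] at h0
    linarith
  rw [BCl.I2_sub, b₁, b₂, h4] at hq
  have h5 : l₁ = l₂ := by
    have : (l₁ - l₂) * B.I (B.pb L) v₁ (B.pb B.A) (B.pb B.A) = 0 := by linarith
    rcases mul_eq_zero.1 this with h | h
    · linarith
    · exact absurd h hpos.ne'
  rw [BCl.I2_sub, a₁, a₂, h3, h5, sub_self]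

end

/-- **Theorem.** Let `w` be the difference of two good classes, `L.w.A.A = 0` and `w.w.A.A = 0`. Then the
class of `w` is zero. -/
theorem class_zero (hT : Two B L) {v₁ v₂ : B.V} (h₁ : Good B L v₁) (h₂ : Good B L v₂)
    (h0 : B.I (B.pb L) (v₁ - v₂) (B.pb B.A) (B.pb B.A) = 0)
    (hpos : 0 < B.I (B.pb L) v₁ (B.pb B.A) (B.pb B.A))
    (hq : B.I (v₁ - v₂) (v₁ - v₂) (B.pb B.A) (B.pb B.A) = 0) (a b c : B.V) :
    B.I (v₁ - v₂) a b c = 0 := by
  by_contra hne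
  obtain ⟨H, hH, hHA, h⟩ := B.strict (v₁ - v₂) ⟨a, b, c, hne⟩
  have h1 := h L hT.nef (LLHH hT hH hHA) (by
    have := Lw hT hH hHA h₁ h₂ h0 H
    rwa [B.symm23] at this)
  rw [wwHH hT hH hHA h₁ h₂ h0 hpos hq] at h1
  exact lt_irrefl _ h1

/-- A b-divisor with finitely many components on `X`, the classes of which are linearly independent, is zero if
its class is zero. -/
theorem eq_zero_of_class {w : B.V} (htr : B.tr w = 0) (S : Finset B.D) (hS : ∀ G ∈ S, B.X G)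
    (hw : ∀ G, B.X G → G ∉ S → B.o w G = 0) (h0 : ∀ a b c, B.I w a b c = 0)
    (hind : ∑ G ∈ S, B.o w G • B.cl G = 0 → ∀ G ∈ S, B.o w G = 0) : w = 0 := by
  classical
  have h1 : ∑ G ∈ S, B.o w G • B.cl G = 0 := by
    refine B.nd _ fun x y z => ?_
    have h2 := projFin w S htr hS hw x y z
    rw [h0] at h2
    have h3 : B.pb (∑ G ∈ S, B.o w G • B.cl G) = ∑ G ∈ S, B.o w G • B.pb (B.cl G) := by
      have h4 := map_sum (IsLinearMap.mk' _ B.pb_lin) (fun G => B.o w G • B.cl G) S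
      refine h4.trans (Finset.sum_congr rfl fun G _ => ?_)
      exact (IsLinearMap.mk' _ B.pb_lin).map_smul (B.o w G) (B.cl G)
    rw [h3, BCl.I1_sum]
    simp_rw [BCl.I1_smul]
    linarith
  have h2 := hind h1
  exact B.zero w htr (fun G hG => by
    by_cases h : G ∈ S
    · exact h2 G h
    · exact hw G hG h) h0

end Pool.Agent.H87.FB
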